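import Pool.Agent.TH327.Dim.Cnt

/-! # Covers at a single scale -/

set_option autoImplicit false

namespace Pool.Agent.NH21.Sar

open Finset MeasureTheory
open Pool.Agent.TH327.Dim (norm_coe_le norm_sub_coe_le le_norm_frac Th)

/-- `K` is covered by at most `M` closed arcs of half-length `1/x` -/
def CovR (K : Set UnitAddCircle) (x M : ℝ) : Prop :=
  ∃ F : Finset UnitAddCircle, (F.card : ℝ) ≤ M ∧ ∀ z ∈ K, ∃ y ∈ F, ‖z - y‖ ≤ 1 / x

lemma CovR.nonneg {K : Set UnitAddCircle} {x M : ℝ} (h : CovR K x M) : 0 ≤ M := by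
  obtain ⟨F, hF, -⟩ := h
  exact le_trans (Nat.cast_nonneg _) hF

lemma CovR.mono {K : Set UnitAddCircle} {x M M' : ℝ} (h : CovR K x M) (hM : M ≤ M') : CovR K x M' := by
  obtain ⟨F, hF, h⟩ := h
  exact ⟨F, hF.trans hM, h⟩

lemma CovR.scale {K : Set UnitAddCircle} {x x' M : ℝ} (h : CovR K x M) (hx : 0 < x') (hx' : x' ≤ x) : CovR K x' M := by
  obtain ⟨F, hF, h⟩ := h
  refine ⟨F, hF, fun z hz => ?_⟩
  obtain ⟨y, hy, hy2⟩ := h z hz
  exact ⟨y, hy, hy2.trans (one_div_le_one_div_of_le hx hx')⟩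

lemma CovR.subset {K K' : Set UnitAddCircle} {x M : ℝ} (h : CovR K x M) (hK : K' ⊆ K) : CovR K' x M := by
  obtain ⟨F, hF, h⟩ := h
  exact ⟨F, hF, fun z hz => h z (hK hz)⟩

/-- separated points near `K` -/
lemma sepR {ι : Type*} {K : Set UnitAddCircle} {X M : ℝ} (hK : CovR K X M) (I : Finset ι) (x : ι → UnitAddCircle)
    (δ τ : ℝ) (hx : ∀ i ∈ I, ∀ j ∈ I, i ≠ j → δ ≤ ‖x i - x j‖)
    (hτ : ∀ i ∈ I, ∃ z ∈ K, ‖x i - z‖ ≤ τ) (h : τ + 1 / X < δ / 2) :
    (I.card : ℝ) ≤ M := by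
  classical
  obtain ⟨F, hF, hcov⟩ := hK
  have h1 : ∀ i ∈ I, ∃ y ∈ F, ‖x i - y‖ ≤ τ + 1 / X := by
    intro i hi
    obtain ⟨z, hz, hz2⟩ := hτ i hi
    obtain ⟨y, hy, hy2⟩ := hcov z hz
    refine ⟨y, hy, ?_⟩
    calc ‖x i - y‖ = ‖(x i - z) + (z - y)‖ := by congr 1; abel
      _ ≤ ‖x i - z‖ + ‖z - y‖ := norm_add_le _ _
      _ ≤ τ + 1 / X := add_le_add hz2 hy2
  choose! y hy hy2 using h1
  have h2 : I.card ≤ F.card := by
    refine Finset.card_le_card_of_injOn y hy ?_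
    intro i hi j hj hij
    by_contra hne
    have h3 := hx i hi j hj hne
    have h4 : ‖x i - x j‖ ≤ (τ + 1 / X) + (τ + 1 / X) := by
      calc ‖x i - x j‖ = ‖(x i - y i) - (x j - y j)‖ := by
            have hij' : y i = y j := hij
            rw [hij']
            congr 1; abel
        _ ≤ ‖x i - y i‖ + ‖x j - y j‖ := norm_sub_le _ _
        _ ≤ _ := add_le_add (hy2 i hi) (hy2 j hj)
    linarith
  exact le_trans (by exact_mod_cast h2) hF

/-- the residues near `K` -/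
lemma cardA' {K : Set UnitAddCircle} {M : ℝ} (r : ℕ) (hK : CovR K (4 * r) M) (hr : 1 ≤ r) (τ : ℝ) (hτ : τ ≤ 1 / (8 * r))
    (I : Finset ℕ) (hI : ∀ b ∈ I, b < r ∧ ∃ z ∈ K, ‖(((b : ℝ) / r : ℝ) : UnitAddCircle) - z‖ ≤ τ) :
    (I.card : ℝ) ≤ M := by
  have hr0 : (0 : ℝ) < r := by exact_mod_cast hr
  have h := sepR hK I (fun b : ℕ => (((b : ℝ) / r : ℝ) : UnitAddCircle)) (1 / r) τ
    (by
      intro i hi j hj hij
      have h1 : ((((i : ℝ) / r : ℝ)) : UnitAddCircle) - (((j : ℝ) / r : ℝ) : UnitAddCircle) =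
          (((((i : ℤ) - (j : ℤ) : ℤ) : ℝ) / r : ℝ) : UnitAddCircle) := by
        rw [← AddCircle.coe_sub]; congr 1; push_cast; ring
      rw [h1]
      apply le_norm_frac _ _ hr
      intro hd
      apply hij
      have h2 := Int.eq_zero_of_abs_lt_dvd hd (by
        have := (hI i hi).1; have := (hI j hj).1
        rw [abs_lt]; constructor <;> omega)
      omega) (fun i hi => (hI i hi).2) (by
      have h1 : 1 / (8 * (r : ℝ)) + 1 / (4 * r) < 1 / r / 2 := by
        rw [div_add_div _ _ (by positivity) (by positivity), div_div, div_lt_div_iff₀ (by positivity) (by positivity)]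
        nlinarith [mul_pos hr0 hr0]
      linarith)
  exact h

/-- the fractions with denominators `p' r` near `K` -/
lemma cardB' {K : Set UnitAddCircle} {M : ℝ} (r : ℕ) (hr : 1 ≤ r) (Q : ℕ) (hK : CovR K (4 * (Q ^ 2 * r)) M) (τ : ℝ)
    (hτ : τ ≤ 1 / (8 * (Q ^ 2 * r))) (I : Finset (ℕ × ℕ))
    (hI : ∀ x ∈ I, x.1.Prime ∧ x.1 ≤ Q ∧ x.2 < x.1 * r ∧ ¬ x.1 ∣ x.2 ∧
      ∃ z ∈ K, ‖(((x.2 : ℝ) / (x.1 * r) : ℝ) : UnitAddCircle) - z‖ ≤ τ) :
    (I.card : ℝ) ≤ M := by
  rcases I.eq_empty_or_nonempty with rfl | ⟨x0, hx0⟩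
  · simp only [card_empty, Nat.cast_zero]
    exact hK.nonneg
  have hQ1 : 2 ≤ Q := (hI x0 hx0).1.two_le.trans (hI x0 hx0).2.1
  have hr0 : (0 : ℝ) < r := by exact_mod_cast hr
  have hQ0 : (0 : ℝ) < Q := by exact_mod_cast (by omega : 0 < Q)
  have h := sepR hK I (fun x : ℕ × ℕ => (((x.2 : ℝ) / (x.1 * r) : ℝ) : UnitAddCircle)) (1 / (Q ^ 2 * r)) τ
    (by
      rintro ⟨p, c⟩ hi ⟨q, d⟩ hj hij
      obtain ⟨hp, hpQ, hc, hpc, -⟩ := hI _ hi
      obtain ⟨hq, hqQ, hd, hqd, -⟩ := hI _ hj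
      simp only at hp hpQ hc hpc hq hqQ hd hqd
      have hp0 : (0 : ℝ) < p := by exact_mod_cast hp.pos
      have hq0 : (0 : ℝ) < q := by exact_mod_cast hq.pos
      have h1 : ((((c : ℝ) / (p * r) : ℝ)) : UnitAddCircle) - (((d : ℝ) / (q * r) : ℝ) : UnitAddCircle) =
          (((((c : ℤ) * q - d * p : ℤ) : ℝ) / ((p * q * r : ℕ) : ℝ) : ℝ) : UnitAddCircle) := by
        rw [← AddCircle.coe_sub]; congr 1; push_cast; field_simp
      rw [h1]
      have h2 : 1 / ((Q : ℝ) ^ 2 * r) ≤ 1 / ((p * q * r : ℕ) : ℝ) := by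
        apply one_div_le_one_div_of_le
        · push_cast; positivity
        · push_cast
          apply mul_le_mul_of_nonneg_right _ hr0.le
          rw [pow_two]
          exact mul_le_mul (by exact_mod_cast hpQ) (by exact_mod_cast hqQ) hq0.le hQ0.le
      refine h2.trans (le_norm_frac _ _ (Nat.mul_pos (Nat.mul_pos hp.pos hq.pos) (by omega)) ?_)
      intro hdv
      apply hij
      by_cases hpq : p = q
      · subst hpq
        have h3 : ((p * (p * r) : ℕ) : ℤ) ∣ p * ((c : ℤ) - d) := by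
          have : ((p * p * r : ℕ) : ℤ) = ((p * (p * r) : ℕ) : ℤ) := by push_cast; ring
          rw [← this]
          convert hdv using 1
          ring
        have h4 : ((p * r : ℕ) : ℤ) ∣ (c : ℤ) - d := by
          push_cast at h3 ⊢
          exact Int.dvd_of_mul_dvd_mul_left (by exact_mod_cast hp.pos.ne') h3
        have h5 := Int.eq_zero_of_abs_lt_dvd h4 (by
          rw [abs_lt]; push_cast; constructor
          · have : (d : ℤ) < p * r := by exact_mod_cast hd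
            have : (0 : ℤ) ≤ c := by positivity
            linarith
          · have : (c : ℤ) < p * r := by exact_mod_cast hc
            have : (0 : ℤ) ≤ d := by positivity
            linarith)
        have : c = d := by omega
        rw [this]
      · exfalso
        apply hpc
        have h3 : (p : ℤ) ∣ (c : ℤ) * q - d * p := by
          refine dvd_trans ?_ hdv
          push_cast
          exact ⟨q * r, by ring⟩
        have h4 : (p : ℤ) ∣ (c : ℤ) * q := by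
          have := dvd_add h3 (⟨(d : ℤ), by ring⟩ : (p : ℤ) ∣ d * p)
          simpa using this
        have h5 : p ∣ c * q := by exact_mod_cast h4
        rcases (Nat.Prime.dvd_mul hp).1 h5 with h6 | h6
        · exact h6
        · exact absurd ((Nat.prime_dvd_prime_iff_eq hp hq).1 h6) hpq) (fun i hi => (hI i hi).2.2.2.2) (by
      have hz : (0 : ℝ) < Q ^ 2 * r := by positivity
      have h1 : 1 / (8 * ((Q : ℝ) ^ 2 * r)) + 1 / (4 * (Q ^ 2 * r)) < 1 / (Q ^ 2 * r) / 2 := by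
        rw [div_add_div _ _ (by positivity) (by positivity), div_div, div_lt_div_iff₀ (by positivity) (by positivity)]
        nlinarith [mul_pos hz hz]
      linarith)
  exact h

/-- covers at the powers of `Q` give covers at all scales -/
lemma CovR.all {K : Set UnitAddCircle} {Q s : ℝ} (hQ : 1 < Q) (hs : 0 ≤ s) (A : ℕ)
    (h : ∀ k : ℕ, 1 ≤ k → k ≤ A → CovR K (Q ^ k) ((Q ^ k) ^ s)) (x : ℝ) (hx : 1 ≤ x) (hxA : x ≤ Q ^ A) (hA : 1 ≤ A) :
    CovR K x ((x * Q) ^ s) := by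
  have hQ0 : 0 < Q := by linarith
  obtain ⟨k, hk⟩ : ∃ k : ℕ, 1 ≤ k ∧ k ≤ A ∧ x ≤ Q ^ k ∧ Q ^ k ≤ x * Q := by
    have hex : ∃ k : ℕ, 1 ≤ k ∧ x ≤ Q ^ k := ⟨A, hA, hxA⟩
    classical
    refine ⟨Nat.find hex, (Nat.find_spec hex).1, Nat.find_min' hex ⟨hA, hxA⟩, (Nat.find_spec hex).2, ?_⟩
    rcases Nat.lt_or_ge 1 (Nat.find hex) with h1 | h1
    · have h2 := Nat.find_min hex (m := Nat.find hex - 1) (by omega)
      have h3 : Q ^ (Nat.find hex - 1) < x := by
        by_contra hcon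
        exact h2 ⟨by omega, not_lt.1 hcon⟩
      have h4 : Q ^ (Nat.find hex) = Q ^ (Nat.find hex - 1) * Q := by
        rw [← pow_succ]; congr 1; omega
      rw [h4]
      exact mul_le_mul_of_nonneg_right h3.le hQ0.le
    · have h2 : Nat.find hex = 1 := by
        have := (Nat.find_spec hex).1
        omega
      rw [h2, pow_one]
      nlinarith
  exact ((h k hk.1 hk.2.1).scale (by linarith) hk.2.2.1).mono (Real.rpow_le_rpow (by positivity) hk.2.2.2 hs)

end Pool.Agent.NH21.Sar
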